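import Pool.Agent.Helper2.LD.St2

/-!
# LD project: ranks of the basic predicates
-/

set_option autoImplicit false

namespace Pool.Agent.Helper96.LD

open Pool.Agent.Helper2.LD

section gen

variable {V W : Type} {G : SimpleGraph V} {H : SimpleGraph W} {p : List (V × W)} {q : ℕ}

private theorem efMono (hE : StEFb) {q q' : ℕ} (h : EF G H q p) (hq : q' ≤ q) : EF G H q' p := by
  obtain ⟨d, rfl⟩ := Nat.exists_eq_add_of_le hq
  clear hq
  induction d with
  | zero => exact h
  | succ d ih => exact ih (hE.mono G H (q' + d) p h)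

private theorem exIff (h : EF G H (q + 1) p) {A : V → Prop} {B : W → Prop}
    (hAB : ∀ u u', EF G H q ((u, u') :: p) → (A u ↔ B u')) : (∃ u, A u) ↔ ∃ u', B u' := by
  constructor
  · rintro ⟨u, hu⟩
    obtain ⟨u', hu'⟩ := h.2.1 u
    exact ⟨u', (hAB u u' hu').1 hu⟩
  · rintro ⟨u', hu⟩
    obtain ⟨u, hu'⟩ := h.2.2 u'
    exact ⟨u, (hAB u u' hu').2 hu⟩

private theorem allIff (h : EF G H (q + 1) p) {A : V → Prop} {B : W → Prop}
    (hAB : ∀ u u', EF G H q ((u, u') :: p) → (A u ↔ B u')) : (∀ u, A u) ↔ ∀ u', B u' := by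
  constructor
  · intro hA u'
    obtain ⟨u, hu'⟩ := h.2.2 u'
    exact (hAB u u' hu').1 (hA u)
  · intro hB u
    obtain ⟨u', hu'⟩ := h.2.1 u
    exact (hAB u u' hu').2 (hB u')

private theorem adjIff (hE : StEFb) (h : EF G H q p) {v v' : V} {w w' : W} (h1 : (v, w) ∈ p)
    (h2 : (v', w') ∈ p) : G.Adj v v' ↔ H.Adj w w' :=
  (hE.pi G H q p h _ h1 _ h2).2

private theorem eqIff (hE : StEFb) (h : EF G H q p) {v v' : V} {w w' : W} (h1 : (v, w) ∈ p)
    (h2 : (v', w') ∈ p) : v = v' ↔ w = w' :=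
  (hE.pi G H q p h _ h1 _ h2).1

private theorem cnt1 (hE : StEFb) {r : ℕ} {A : V → Prop} {B : W → Prop} (n : ℕ) :
    ∀ p : List (V × W), EF G H (n + r) p →
    (∀ p' : List (V × W), (∀ x ∈ p, x ∈ p') → EF G H r p' → ∀ a b, (a, b) ∈ p' → (A a ↔ B b)) →
    ∀ F : List (V × W), (∀ x ∈ F, x ∈ p) →
    (∃ s : Finset V, s.card = n ∧ ∀ w ∈ s, A w ∧ ∀ x ∈ F, x.1 ≠ w) →
    ∃ s : Finset W, s.card = n ∧ ∀ w ∈ s, B w ∧ ∀ x ∈ F, x.2 ≠ w := by
  classical
  induction n with
  | zero =>
    intro p _ _ F _ _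
    exact ⟨∅, rfl, fun w hw => absurd hw (Finset.notMem_empty w)⟩
  | succ n ih =>
    rintro p h hAB F hF ⟨s, hs, hsA⟩
    obtain ⟨a, ha⟩ : s.Nonempty := Finset.card_pos.1 (by omega)
    have h' : EF G H (n + r + 1) p := by
      have : n + r + 1 = n + 1 + r := by omega
      rw [this]; exact h
    obtain ⟨b, hb⟩ := h'.2.1 a
    obtain ⟨s', hs', hsB⟩ := ih ((a, b) :: p) hb
      (fun p' hp' he => hAB p' (fun x hx => hp' x (List.mem_cons_of_mem _ hx)) he)
      ((a, b) :: F) (by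
        intro x hx
        rcases List.mem_cons.1 hx with rfl | hx
        · exact List.mem_cons_self
        · exact List.mem_cons_of_mem _ (hF x hx))
      ⟨s.erase a, by rw [Finset.card_erase_of_mem ha]; omega, fun w hw => by
        rw [Finset.mem_erase] at hw
        refine ⟨(hsA w hw.2).1, fun x hx => ?_⟩
        rcases List.mem_cons.1 hx with rfl | hx
        · exact fun hh => hw.1 hh.symm
        · exact (hsA w hw.2).2 x hx⟩
    have hbs : b ∉ s' := fun hh => (hsB b hh).2 (a, b) List.mem_cons_self rfl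
    refine ⟨insert b s', by rw [Finset.card_insert_of_notMem hbs, hs'], ?_⟩
    intro w hw
    rcases Finset.mem_insert.1 hw with rfl | hw
    · refine ⟨(hAB ((a, w) :: p) (fun x hx => List.mem_cons_of_mem _ hx)
        (efMono hE hb (by omega)) a w List.mem_cons_self).1 (hsA a ha).1, ?_⟩
      intro x hx hh
      have h1 := (eqIff hE hb (v := x.1) (w := x.2) (List.mem_cons_of_mem _ (hF x hx))
        List.mem_cons_self).2 hh
      exact (hsA a ha).2 x hx h1
    · exact ⟨(hsB w hw).1, fun x hx => (hsB w hw).2 x (List.mem_cons_of_mem _ hx)⟩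

private theorem cnt (hE : StEFb) {r : ℕ} {A : V → Prop} {B : W → Prop} (n : ℕ)
    (h : EF G H (n + r) p)
    (hAB : ∀ p' : List (V × W), (∀ x ∈ p, x ∈ p') → EF G H r p' →
      ∀ a b, (a, b) ∈ p' → (A a ↔ B b)) :
    (∃ s : Finset V, s.card = n ∧ ∀ w ∈ s, A w) ↔ ∃ s : Finset W, s.card = n ∧ ∀ w ∈ s, B w := by
  constructor
  · rintro ⟨s, hs, hA⟩
    obtain ⟨s', hs', hB⟩ := cnt1 hE n p h hAB [] (by simp) ⟨s, hs, fun w hw => ⟨hA w hw, by simp⟩⟩
    exact ⟨s', hs', fun w hw => (hB w hw).1⟩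
  · rintro ⟨s, hs, hA⟩
    obtain ⟨s', hs', hB⟩ := cnt1 hE n (p.map Prod.swap) (hE.symm G H _ p h) (A := B) (B := A) (by
      intro p' hp' he a b hab
      refine (hAB (p'.map Prod.swap) ?_ (hE.symm H G _ p' he) b a ?_).symm
      · intro x hx
        have h1 : x.swap ∈ p' := hp' _ (List.mem_map.2 ⟨x, hx, rfl⟩)
        exact List.mem_map.2 ⟨x.swap, h1, Prod.swap_swap x⟩
      · exact List.mem_map.2 ⟨(a, b), hab, rfl⟩) [] (by simp)
        ⟨s, hs, fun w hw => ⟨hA w hw, by simp⟩⟩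
    exact ⟨s', hs', fun w hw => (hB w hw).1⟩

end gen

/-! ## the basic sorts -/

section basic

variable {V W : Type} {G : SimpleGraph V} {H : SimpleGraph W} {p : List (V × W)} {q : ℕ}
  {v v' : V} {w w' : W}

private theorem leafI (hE : StEFb) (h : EF G H q p) (hq : 2 ≤ q) (hv : (v, w) ∈ p) :
    Leaf G v ↔ Leaf H w := by
  have h2 : EF G H (1 + 1) p := efMono hE h hq
  refine exIff h2 fun u u' h3 => and_congr ?_ ?_
  · exact adjIff hE h3 (List.mem_cons_of_mem _ hv) List.mem_cons_self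
  · have h4 : EF G H (0 + 1) ((u, u') :: p) := h3
    refine allIff h4 fun x x' h5 => ?_
    have m1 : (v, w) ∈ (x, x') :: (u, u') :: p :=
      List.mem_cons_of_mem _ (List.mem_cons_of_mem _ hv)
    have m2 : (u, u') ∈ (x, x') :: (u, u') :: p := List.mem_cons_of_mem _ List.mem_cons_self
    have m3 : (x, x') ∈ (x, x') :: (u, u') :: p := List.mem_cons_self
    rw [adjIff hE h5 m1 m3, eqIff hE h5 m3 m2]

private theorem rvI (hE : StEFb) (h : EF G H q p) (hq : 5 ≤ q) (hv : (v, w) ∈ p) :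
    Rv G v ↔ Rv H w := by
  refine cnt hE (r := 2) 3 (efMono hE h hq) fun p' hp' he a b hab => ?_
  rw [adjIff hE he (hp' _ hv) hab, leafI hE he le_rfl hab]

private theorem degI (hE : StEFb) {n : ℕ} (h : EF G H q p) (hq : n ≤ q) (hv : (v, w) ∈ p) :
    DegGe G n v ↔ DegGe H n w := by
  refine cnt hE (r := 0) n (efMono hE h hq) fun p' hp' he a b hab => ?_
  exact adjIff hE he (hp' _ hv) hab

/-- `exists` a neighbour with a given property -/
private theorem exAdj (hE : StEFb) {r : ℕ} {A : V → Prop} {B : W → Prop} (h : EF G H q p)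
    (hq : r + 1 ≤ q) (hv : (v, w) ∈ p)
    (hAB : ∀ p' : List (V × W), (∀ x ∈ p, x ∈ p') → EF G H r p' →
      ∀ a b, (a, b) ∈ p' → (A a ↔ B b)) :
    (∃ u, G.Adj v u ∧ A u) ↔ ∃ u, H.Adj w u ∧ B u := by
  refine exIff (efMono hE h hq) fun u u' h3 => and_congr ?_ ?_
  · exact adjIff hE h3 (List.mem_cons_of_mem _ hv) List.mem_cons_self
  · exact hAB _ (fun x hx => List.mem_cons_of_mem _ hx) h3 _ _ List.mem_cons_self

private theorem a2I (hE : StEFb) (h : EF G H q p) (hq : 6 ≤ q) (hv : (v, w) ∈ p) :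
    A2v G v ↔ A2v H w := by
  refine and_congr (not_congr (leafI hE h (by omega) hv)) ?_
  exact exAdj hE (r := 5) h hq hv fun _ _ he _ _ hab => rvI hE he le_rfl hab

private theorem a1I (hE : StEFb) (h : EF G H q p) (hq : 7 ≤ q) (hv : (v, w) ∈ p) :
    A1v G v ↔ A1v H w := by
  refine and_congr (not_congr (rvI hE h (by omega) hv)) ?_
  exact exAdj hE (r := 6) h hq hv fun _ _ he _ _ hab => a2I hE he le_rfl hab

private theorem plI (hE : StEFb) (h : EF G H q p) (hq : 8 ≤ q) (hv : (v, w) ∈ p) :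
    Plv G v ↔ Plv H w := by
  refine and_congr (not_congr (a2I hE h (by omega) hv))
    (and_congr (degI hE h (by omega) hv) ?_)
  exact exAdj hE (r := 7) h hq hv fun _ _ he _ _ hab => a1I hE he le_rfl hab

end basic

/-! ## distances -/

private theorem edist_split {V : Type} (G : SimpleGraph V) (u v : V) (a b : ℕ) :
    G.edist u v ≤ ((a + b : ℕ) : ℕ∞) ↔
      ∃ w, G.edist u w ≤ (a : ℕ∞) ∧ G.edist w v ≤ (b : ℕ∞) := by
  constructor
  · intro h
    have hne : G.edist u v ≠ ⊤ := ne_top_of_le_ne_top (ENat.natCast_ne_top _) h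
    obtain ⟨c, hc⟩ := SimpleGraph.exists_walk_of_edist_ne_top hne
    have hlen : c.length ≤ a + b := by
      rw [← hc] at h
      exact_mod_cast h
    refine ⟨c.getVert a, ?_, ?_⟩
    · refine (SimpleGraph.edist_le (c.take a)).trans ?_
      have : (c.take a).length ≤ a := by
        rw [SimpleGraph.Walk.take_length]; exact min_le_left _ _
      exact_mod_cast this
    · refine (SimpleGraph.edist_le (c.drop a)).trans ?_
      have : (c.drop a).length ≤ b := by
        rw [SimpleGraph.Walk.drop_length]; omega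
      exact_mod_cast this
  · rintro ⟨w, h1, h2⟩
    refine (SimpleGraph.edist_triangle (v := w)).trans ?_
    push_cast
    exact add_le_add h1 h2

private theorem edist_le_one {V : Type} (G : SimpleGraph V) (u v : V) :
    G.edist u v ≤ ((1 : ℕ) : ℕ∞) ↔ u = v ∨ G.Adj u v := by
  constructor
  · intro h
    have hne : G.edist u v ≠ ⊤ := ne_top_of_le_ne_top (ENat.natCast_ne_top _) h
    obtain ⟨c, hc⟩ := SimpleGraph.exists_walk_of_edist_ne_top hne
    have hlen : c.length ≤ 1 := by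
      rw [← hc] at h
      exact_mod_cast h
    rcases Nat.eq_zero_or_pos c.length with h0 | h0
    · exact Or.inl (SimpleGraph.Walk.eq_of_length_eq_zero h0)
    · exact Or.inr (SimpleGraph.Walk.adj_of_length_eq_one (by omega : c.length = 1))
  · rintro (rfl | h)
    · rw [SimpleGraph.edist_self]; exact bot_le
    · have := SimpleGraph.edist_le h.toWalk
      simpa using this

private theorem distI {V W : Type} {G : SimpleGraph V} {H : SimpleGraph W} (hE : StEFb) (j : ℕ) :
    ∀ n : ℕ, n ≤ 2 ^ j → ∀ (p : List (V × W)), EF G H j p → ∀ (v v' : V) (w w' : W), (v, w) ∈ p →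
      (v', w') ∈ p → (G.edist v v' ≤ (n : ℕ∞) ↔ H.edist w w' ≤ (n : ℕ∞)) := by
  induction j with
  | zero =>
    intro n hn p h v v' w w' hv hv'
    rcases Nat.eq_zero_or_pos n with rfl | h0
    · have e0 : ∀ {X : Type} (F : SimpleGraph X) (x y : X),
          F.edist x y ≤ ((0 : ℕ) : ℕ∞) ↔ x = y := by
        intro X F x y
        rw [Nat.cast_zero, nonpos_iff_eq_zero, SimpleGraph.edist_eq_zero_iff]
      rw [e0, e0, eqIff hE h hv hv']
    · have h1 : n = 1 := by
        have : (2 : ℕ) ^ 0 = 1 := rfl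
        omega
      subst h1
      rw [edist_le_one, edist_le_one, eqIff hE h hv hv', adjIff hE h hv hv']
  | succ j ih =>
    intro n hn p h v v' w w' hv hv'
    have h2 : (2 : ℕ) ^ (j + 1) = 2 * 2 ^ j := by ring
    have h3 : n = n / 2 + (n - n / 2) := by omega
    rw [h3, edist_split G v v' (n / 2) (n - n / 2), edist_split H w w' (n / 2) (n - n / 2)]
    refine exIff h fun u u' h4 => and_congr ?_ ?_
    · exact ih _ (by omega) _ h4 _ _ _ _ (List.mem_cons_of_mem _ hv) List.mem_cons_self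
    · exact ih _ (by omega) _ h4 _ _ _ _ List.mem_cons_self (List.mem_cons_of_mem _ hv')

/-! ## restricted walks -/

private theorem RW_succ {V : Type} (G : SimpleGraph V) (n : ℕ) : ∀ u v, RW G n u v →
    RW G (n + 1) u v := by
  induction n with
  | zero => exact fun u v h => Or.inl h
  | succ n ih =>
    rintro u v (h | ⟨w, h1, h2 | ⟨h2, h3⟩⟩)
    · exact Or.inl h
    · exact Or.inr ⟨w, h1, Or.inl h2⟩
    · exact Or.inr ⟨w, h1, Or.inr ⟨h2, ih _ _ h3⟩⟩

private theorem RW_mono {V : Type} (G : SimpleGraph V) {n m : ℕ} (hnm : n ≤ m) {u v : V}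
    (h : RW G n u v) : RW G m u v := by
  obtain ⟨d, rfl⟩ := Nat.exists_eq_add_of_le hnm
  clear hnm
  induction d with
  | zero => exact h
  | succ d ih => exact RW_succ G _ _ _ ih

private theorem RW_comp {V : Type} (G : SimpleGraph V) (a b : ℕ) : ∀ u x v, ¬ Plv G x →
    RW G a u x → RW G b x v → RW G (a + b) u v := by
  induction a with
  | zero =>
    intro u x v _ h1 h2
    have h1 : u = x := h1
    rw [Nat.zero_add, h1]
    exact h2
  | succ a ih =>
    intro u x v hx h1 h2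
    rcases h1 with h1 | ⟨w, h1, h3 | ⟨h3, h4⟩⟩
    · rw [h1]
      exact RW_mono G (by omega) h2
    · have : RW G (b + 1) u v := Or.inr ⟨w, h1, Or.inr (by rw [h3]; exact ⟨hx, h2⟩)⟩
      exact RW_mono G (by omega) this
    · have h5 := ih w x v hx h4 h2
      have : RW G (a + b + 1) u v := Or.inr ⟨w, h1, Or.inr ⟨h3, h5⟩⟩
      exact RW_mono G (by omega) this

private theorem RW_one {V : Type} (G : SimpleGraph V) (u v : V) : RW G 1 u v ↔
    u = v ∨ G.Adj u v := by
  constructor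
  · rintro (h | ⟨w, h1, h2 | ⟨_, h3⟩⟩)
    · exact Or.inl h
    · exact Or.inr (h2 ▸ h1)
    · have h3 : w = v := h3
      exact Or.inr (h3 ▸ h1)
  · rintro (h | h)
    · exact Or.inl h
    · exact Or.inr ⟨v, h, Or.inl rfl⟩

private theorem RW_dec {V : Type} (G : SimpleGraph V) (a b : ℕ) : ∀ u v,
    RW G (a + 1 + b) u v → RW G (a + 1) u v ∨ ∃ x, ¬ Plv G x ∧ RW G (a + 1) u x ∧ RW G b x v := by
  induction a with
  | zero =>
    intro u v h
    have h : RW G (b + 1) u v := by
      have : b + 1 = 0 + 1 + b := by omega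
      rw [this]; exact h
    rcases h with h | ⟨w, h1, h2 | ⟨h2, h3⟩⟩
    · exact Or.inl (Or.inl h)
    · exact Or.inl (Or.inr ⟨w, h1, Or.inl h2⟩)
    · exact Or.inr ⟨w, h2, (RW_one G u w).2 (Or.inr h1), h3⟩
  | succ a ih =>
    intro u v h
    have h : RW G (a + 1 + b + 1) u v := by
      have : a + 1 + b + 1 = a + 1 + 1 + b := by omega
      rw [this]; exact h
    rcases h with h | ⟨w, h1, h2 | ⟨h2, h3⟩⟩
    · exact Or.inl (Or.inl h)
    · exact Or.inl (Or.inr ⟨w, h1, Or.inl h2⟩)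
    · rcases ih w v h3 with h4 | ⟨x, h4, h5, h6⟩
      · exact Or.inl (Or.inr ⟨w, h1, Or.inr ⟨h2, h4⟩⟩)
      · exact Or.inr ⟨x, h4, Or.inr ⟨w, h1, Or.inr ⟨h2, h5⟩⟩, h6⟩

private theorem RW_split {V : Type} (G : SimpleGraph V) {a b : ℕ} (ha : 1 ≤ a) (u v : V) :
    RW G (a + b) u v ↔ RW G a u v ∨ ∃ x, ¬ Plv G x ∧ RW G a u x ∧ RW G b x v := by
  constructor
  · intro h
    obtain ⟨a', rfl⟩ : ∃ a', a = a' + 1 := ⟨a - 1, by omega⟩
    exact RW_dec G a' b u v h
  · rintro (h | ⟨x, h1, h2, h3⟩)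
    · exact RW_mono G (by omega) h
    · exact RW_comp G a b u x v h1 h2 h3

private theorem rwI {V W : Type} {G : SimpleGraph V} {H : SimpleGraph W} (hE : StEFb) (j : ℕ) :
    ∀ n ≤ 2 ^ j, ∀ (p : List (V × W)), EF G H (8 + j) p → ∀ (v v' : V) (w w' : W), (v, w) ∈ p →
      (v', w') ∈ p → (RW G n v v' ↔ RW H n w w') := by
  induction j with
  | zero =>
    intro n hn p h v v' w w' hv hv'
    rcases Nat.eq_zero_or_pos n with rfl | h0
    · exact eqIff hE h hv hv'
    · have h1 : n = 1 := by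
        have : (2 : ℕ) ^ 0 = 1 := rfl
        omega
      subst h1
      rw [RW_one, RW_one, eqIff hE h hv hv', adjIff hE h hv hv']
  | succ j ih =>
    intro n hn p h v v' w w' hv hv'
    have h2 : (2 : ℕ) ^ (j + 1) = 2 * 2 ^ j := by ring
    have h2' : 1 ≤ (2 : ℕ) ^ j := Nat.one_le_two_pow
    by_cases hn1 : n ≤ 1
    · exact ih n (by omega) p (efMono hE h (by omega)) v v' w w' hv hv'
    have h3 : n = n / 2 + (n - n / 2) := by omega
    rw [h3, RW_split G (by omega : 1 ≤ n / 2), RW_split H (by omega : 1 ≤ n / 2)]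
    refine or_congr ?_ ?_
    · exact ih _ (by omega) p (efMono hE h (by omega)) v v' w w' hv hv'
    · have h' : EF G H (8 + j + 1) p := h
      refine exIff h' fun u u' h4 => and_congr ?_ (and_congr ?_ ?_)
      · exact not_congr (plI hE h4 (by omega) List.mem_cons_self)
      · exact ih _ (by omega) _ h4 _ _ _ _ (List.mem_cons_of_mem _ hv) List.mem_cons_self
      · exact ih _ (by omega) _ h4 _ _ _ _ List.mem_cons_self (List.mem_cons_of_mem _ hv')

/-! ## sorts -/

section sorts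

variable {V W : Type} {G : SimpleGraph V} {H : SimpleGraph W} {p : List (V × W)} {q : ℕ}
  {v v' : V} {w w' : W} {k : ℕ}

private theorem rwK (hE : StEFb) (hk : 40 ≤ k) {n : ℕ} (hn : n ≤ SS k) (h : EF G H q p)
    (hq : k - 22 ≤ q) (hv : (v, w) ∈ p) (hv' : (v', w') ∈ p) : RW G n v v' ↔ RW H n w w' := by
  refine rwI hE (k - 30) n hn p (efMono hE h (by omega)) v v' w w' hv hv'

private theorem kndI (hE : StEFb) (hk : 40 ≤ k) (X : Finset ℕ) (h : EF G H q p)
    (hq : k - 21 ≤ q) (hv : (v, w) ∈ p) : Knd k G X v ↔ Knd k H X w := by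
  refine and_congr (a1I hE h (by omega) hv) ?_
  refine forall_congr' fun i => imp_congr_right fun _ => imp_congr_right fun hi => iff_congr Iff.rfl ?_
  have h' : EF G H (k - 22 + 1) p := efMono hE h (by omega)
  refine exIff h' fun u u' h4 => and_congr ?_ (and_congr ?_ ?_)
  · exact leafI hE h4 (by omega) List.mem_cons_self
  · exact rwK hE hk hi h4 le_rfl (List.mem_cons_of_mem _ hv) List.mem_cons_self
  · exact not_congr (rwK hE hk (by omega) h4 le_rfl (List.mem_cons_of_mem _ hv)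
      List.mem_cons_self)

private theorem exRv (hE : StEFb) (h : EF G H q p) (hq : 6 ≤ q) (hv : (v, w) ∈ p) :
    (∃ u, G.Adj v u ∧ Rv G u) ↔ ∃ u, H.Adj w u ∧ Rv H u :=
  exAdj hE (r := 5) h hq hv fun _ _ he _ _ hab => rvI hE he le_rfl hab

private theorem exKnd (hE : StEFb) (hk : 40 ≤ k) (X : Finset ℕ) (h : EF G H q p)
    (hq : k - 20 ≤ q) (hv : (v, w) ∈ p) :
    (∃ u, G.Adj v u ∧ Knd k G X u) ↔ ∃ u, H.Adj w u ∧ Knd k H X u :=
  exAdj hE (r := k - 21) h (by omega) hv fun _ _ he _ _ hab => kndI hE hk X he le_rfl hab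

private theorem exA2 (hE : StEFb) (hk : 40 ≤ k) (X : Finset ℕ) (h : EF G H q p)
    (hq : k - 19 ≤ q) (hv : (v, w) ∈ p) :
    (∃ u, G.Adj v u ∧ A2v G u ∧ ∃ a, G.Adj u a ∧ Knd k G X a) ↔
      ∃ u, H.Adj w u ∧ A2v H u ∧ ∃ a, H.Adj u a ∧ Knd k H X a :=
  exAdj hE (r := k - 20) h (by omega) hv fun _ _ he _ _ hab =>
    and_congr (a2I hE he (by omega) hab) (exKnd hE hk X he le_rfl hab)

private theorem clsI (hE : StEFb) (hk : 40 ≤ k) {K : Type} (code : K → Finset ℕ) (c : Cl K)
    (hc : ∀ κ, ∀ i ∈ code κ, i ≤ SS k) (hok : c.ok code) (h : EF G H (k - 18) p)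
    (hv : (v, w) ∈ p) : Is k code G c v ↔ Is k code H c w := by
  cases c with
  | pl => exact plI hE h (by omega) hv
  | a1 κ => exact kndI hE hk (code κ) h (by omega) hv
  | a2 κ => exact and_congr (a2I hE h (by omega) hv) (exKnd hE hk (code κ) h (by omega) hv)
  | r κ => exact and_congr (rvI hE h (by omega) hv) (exA2 hE hk (code κ) h (by omega) hv)
  | l κ =>
    refine and_congr (leafI hE h (by omega) hv) ?_
    exact exAdj hE (r := k - 19) h (by omega) hv fun _ _ he _ _ hab =>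
      and_congr (rvI hE he (by omega) hab) (exA2 hE hk (code κ) he le_rfl hab)
  | m κ i j =>
    have hi : i ≤ SS k := hc κ i hok.1
    have hj : j ≤ i := hok.2.2
    refine and_congr (not_congr (plI hE h (by omega) hv)) (and_congr (not_congr
      (a1I hE h (by omega) hv)) (and_congr (not_congr (a2I hE h (by omega) hv)) (and_congr
      (not_congr (rvI hE h (by omega) hv)) (and_congr (not_congr (exRv hE h (by omega) hv)) ?_))))
    have h1 : EF G H (k - 21 + 1) p := efMono hE h (by omega)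
    refine exIff h1 fun a a' h2 => ?_
    have ma : (a, a') ∈ (a, a') :: p := List.mem_cons_self
    have mv : (v, w) ∈ (a, a') :: p := List.mem_cons_of_mem _ hv
    refine and_congr (kndI hE hk (code κ) h2 le_rfl ma) (and_congr
      (rwK hE hk (by omega) h2 (by omega) ma mv) (and_congr
      (not_congr (rwK hE hk (by omega) h2 (by omega) ma mv)) ?_))
    have h3 : EF G H (k - 22 + 1) ((a, a') :: p) := efMono hE h2 (by omega)
    refine exIff h3 fun z z' h4 => ?_
    have nz : (z, z') ∈ (z, z') :: (a, a') :: p := List.mem_cons_self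
    have na : (a, a') ∈ (z, z') :: (a, a') :: p := List.mem_cons_of_mem _ ma
    have nv : (v, w) ∈ (z, z') :: (a, a') :: p := List.mem_cons_of_mem _ mv
    refine and_congr (leafI hE h4 (by omega) nz) (and_congr (not_congr (exRv hE h4 (by omega) nz))
      (and_congr (rwK hE hk hi h4 le_rfl na nz) (and_congr
      (not_congr (rwK hE hk (by omega) h4 le_rfl na nz)) (and_congr
      (rwK hE hk (by omega) h4 le_rfl nv nz) (or_congr Iff.rfl
      (not_congr (rwK hE hk (by omega) h4 le_rfl nv nz)))))))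

end sorts

private theorem distI' {V W : Type} {G : SimpleGraph V} {H : SimpleGraph W} (hE : StEFb)
    (n : ℕ∞) (j : ℕ) (hn : n ≤ 2 ^ j) (p : List (V × W)) (h : EF G H j p) (v v' : V) (w w' : W)
    (hv : (v, w) ∈ p) (hv' : (v', w') ∈ p) : G.edist v v' ≤ n ↔ H.edist w w' ≤ n := by
  have hne : n ≠ ⊤ := by
    intro hh
    rw [hh] at hn
    have h2 : (2 : ℕ∞) ^ j = ((2 ^ j : ℕ) : ℕ∞) := by push_cast; rfl
    rw [h2] at hn
    exact ENat.natCast_ne_top _ (top_le_iff.1 hn)
  obtain ⟨m, rfl⟩ := ENat.ne_top_iff_exists.1 hne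
  have hm : m ≤ 2 ^ j := by exact_mod_cast hn
  exact distI hE j m hm p h v v' w w' hv hv'

theorem pRank (hE : StEFb) : StRank where
  leaf := fun _ _ _ _ _ h hv => leafI hE h le_rfl hv
  degge := fun _ _ _ _ _ _ _ _ h hv => degI hE h le_rfl hv
  pl := fun _ _ _ _ _ h hv => plI hE h le_rfl hv
  dist := fun n j hn _ _ _ _ p v v' w w' h hv hv' => distI' hE n j hn p h v v' w w' hv hv'
  rw' := fun n j hn _ _ _ _ p v v' w w' h hv hv' => rwI hE j n hn p h v v' w w' hv hv'
  cls := fun _ hk _ code c hc hok _ _ _ _ _ _ _ h hv => clsI hE hk code c hc hok h hv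

end Pool.Agent.Helper96.LD
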