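import Pool.Agent.Helper32.LD.StT1

/-!
# LD project, tiling part, module CL: short closed sequences are boundaries of faces
-/

set_option autoImplicit false

namespace Pool.Agent.Helper96.LD

open Pool.Agent.Helper2.LD Pool.Agent.Helper32.LD

theorem tCL (h : StSB) (hNB : StNB) : StCL := by
  intro X E F C al hC hal p n hn hn5 hper hadj hnb
  obtain ⟨i0, A, hdst, hrev, hA⟩ := hNB C al hC hal p hadj hnb
  have hpm : ∀ k i, p (i + k * n) = p i := by
    intro k
    induction k with
    | zero => intro i; rw [zero_mul, add_zero]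
    | succ k ih =>
      intro i
      have : i + (k + 1) * n = i + k * n + n := by ring
      rw [this, hper, ih]
  -- the period is a multiple of `al`
  have hr : n % al = 0 := by
    by_contra hne
    have h1 := hA (n / al) (n % al) (Nat.mod_lt _ (by omega)).le
    have e1 : i0 + n / al * al + n % al = i0 + n := by
      have := Nat.div_add_mod n al
      have e2 : n / al * al = al * (n / al) := mul_comm _ _
      omega
    have h2 := hA 0 0 (by omega)
    rw [zero_mul, add_zero, add_zero] at h2
    rw [e1, hper, h2] at h1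
    rcases h.inter C al (A (n / al)) (A 0) (n % al) 0 (Nat.pos_of_ne_zero hne)
      (Nat.mod_lt _ (by omega)) (by omega) h1.symm with ⟨-, h3⟩ | ⟨-, h3⟩
    · omega
    · have := Nat.mod_lt n (show 0 < al by omega)
      omega
  obtain ⟨q, hq⟩ := Nat.dvd_of_mod_eq_zero hr
  have hq1 : 1 ≤ q := by
    rcases Nat.eq_zero_or_pos q with h0 | h0
    · rw [h0, mul_zero] at hq
      omega
    · exact h0
  have hq5 : q ≤ 5 := by
    have h1 : al * q ≤ al * 5 := by omega
    exact Nat.le_of_mul_le_mul_left h1 (by omega)
  have hAper : ∀ j, A (j + q) = A j := by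
    intro j
    have h1 := hA (j + q) 1 (by omega)
    have h2 := hA j 1 (by omega)
    have e1 : i0 + (j + q) * al + 1 = i0 + j * al + 1 + n := by rw [hq]; ring
    rw [e1, hper, h2] at h1
    rcases h.inter C al (A j) (A (j + q)) 1 1 (by omega) (by omega) (by omega) h1 with
      ⟨h3, -⟩ | ⟨-, h3⟩
    · exact h3
    · omega
  obtain ⟨hq', f, s, hfs⟩ := hC.cyc q A hq1 hq5 hAper hdst hrev
  subst hq'
  have hn' : n = 5 * al := by rw [hq, mul_comm]
  refine ⟨hn', f, ?_⟩
  obtain ⟨N, hN⟩ : ∃ N, N + 1 = 5 * al := ⟨5 * al - 1, by omega⟩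
  have hN' : 5 * al - 1 = N := by omega
  rw [hN']
  have hshift : ∀ l, p l = p (i0 + (l + N * i0)) := by
    intro l
    have e1 : i0 + (l + N * i0) = l + i0 * n := by
      rw [hn', ← hN]
      ring
    rw [e1, hpm]
  have hsv : ((s.val : ℕ) : ZMod 5) = s := ZMod.natCast_zmod_val s
  rcases hfs with hfs | hfs
  · have key : ∀ l, p (i0 + l) = C.fpt al f (s.val * al + l) := by
      intro l
      have h1 := hA (l / al) (l % al) (Nat.mod_lt _ (by omega)).le
      have e0 : l / al * al + l % al = l := by
        rw [mul_comm]
        exact Nat.div_add_mod l al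
      have e1 : i0 + l / al * al + l % al = i0 + l := by omega
      have e2 : s.val * al + l = (s.val + l / al) * al + l % al := by
        rw [add_mul]
        omega
      rw [e1] at h1
      rw [h1, e2, h.fptE C al f _ _ hC (by omega) (Nat.mod_lt _ (by omega)).le, hfs]
      push_cast
      rw [hsv]
    refine ⟨s.val * al + N * i0, Or.inl fun j => ?_⟩
    rw [hshift, key]
    congr 1
    ring
  · have key : ∀ l, p (i0 + l) = C.fpt al f ((s.val + 1) * al + N * l) := by
      intro l
      have h1 := hA (l / al) (l % al) (Nat.mod_lt _ (by omega)).le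
      have e0 : l / al * al + l % al = l := by
        rw [mul_comm]
        exact Nat.div_add_mod l al
      have e1 : i0 + l / al * al + l % al = i0 + l := by omega
      have hjl : l / al ≤ l := Nat.div_le_self _ _
      have hml : l % al < al := Nat.mod_lt _ (by omega)
      obtain ⟨k, hk⟩ : ∃ k, k + l / al = s.val + 5 * l := ⟨s.val + 5 * l - l / al, by omega⟩
      obtain ⟨i', hi'⟩ : ∃ i', i' + l % al = al := ⟨al - l % al, by omega⟩
      have e2 : (s.val + 1) * al + N * l = k * al + i' := by
        have h2 : (k + l / al) * al = (s.val + 5 * l) * al := by rw [hk]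
        have h3 : (N + 1) * l = 5 * al * l := by rw [hN]
        nlinarith
      have e3 : al - l % al = i' := by omega
      have hkc : ((k : ℕ) : ZMod 5) = s - ((l / al : ℕ) : ZMod 5) := by
        have h2 : ((k + l / al : ℕ) : ZMod 5) = ((s.val + 5 * l : ℕ) : ZMod 5) := by rw [hk]
        have h5 : (5 : ZMod 5) = 0 := by decide
        push_cast at h2
        rw [hsv, h5, zero_mul, add_zero] at h2
        exact eq_sub_of_add_eq h2
      rw [e1] at h1
      rw [h1, e2, h.fptE C al f _ _ hC (by omega) (by omega), hfs, h.ptrev C al _ _ hml.le, e3,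
        hkc]
    refine ⟨(s.val + 1) * al + N * (N * i0), Or.inr fun j => ?_⟩
    rw [hshift, key]
    congr 1
    ring

end Pool.Agent.Helper96.LD
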