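import Pool.Agent.Helper96.LD.T_Cor

/-!
# LD project, tiling part, module GB: the other geometric axioms of the core
-/

set_option autoImplicit false

namespace Pool.Agent.Helper96.LD

open Pool.Agent.Helper2.LD Pool.Agent.Helper32.LD

private theorem reach_GB (h : StSB) {X E F : Type} (C : MC X E F) (hC : MCAx C) (al : ℕ)
    (hal : 4 ≤ al) (A : E × Bool) (i : ℕ) (hi : i ≤ al) :
    (C.sub al).Reachable (Sum.inl (C.src A)) (C.pt al A i) := by
  induction i with
  | zero => rw [h.pt0 C al A (by omega)]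
  | succ i ih => exact (ih (by omega)).trans (h.adj C al hC.ne (by omega) A i (by omega)).reachable

/-- consecutive points: corners -/
private theorem step_GB (h : StSB) {X E F Λ B FB : Type} (C : MC X E F) (hC : MCAx C) (al : ℕ)
    (hal : 4 ≤ al) (lb : SV X E al → Λ) (bs : Λ → B) (fl : F → FB) (A : E × Bool) (i : ℕ)
    (hi : i < al) :
    ∃ q, (C.core al lb bs fl).ow q = C.pt al A i ∧
      ((C.core al lb bs fl).ow ((C.core al lb bs fl).nx q) = C.pt al A (i + 1) ∧
        (0 < i → (C.core al lb bs fl).ow ((C.core al lb bs fl).nx.symm q) = C.pt al A (i - 1)) ∨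
       (C.core al lb bs fl).ow ((C.core al lb bs fl).nx.symm q) = C.pt al A (i + 1) ∧
        (0 < i → (C.core al lb bs fl).ow ((C.core al lb bs fl).nx q) = C.pt al A (i - 1))) := by
  have hal1 : 1 ≤ al := by omega
  obtain ⟨f, j, hj⟩ := hC.cov A
  have hjv : ((j.val : ℕ) : ZMod 5) = j := ZMod.natCast_zmod_val j
  have hf : ∀ i, i ≤ al → C.fpt al f (j.val * al + i) = C.pt al (C.arc f j) i := by
    intro i hi
    rw [h.fptE C al f _ _ hC hal1 hi, hjv]
  rcases hj with hj | hj
  · obtain ⟨q, -, hq1, hq2⟩ := cor_Cor h C al lb bs fl hal1 f (j.val * al + i)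
    have a0 := hq1 0
    have a1 := hq1 1
    have a2 := hq2 1
    rw [Function.iterate_zero, id_eq, add_zero, hf i hi.le, hj] at a0
    rw [Function.iterate_one, add_assoc, hf (i + 1) hi, hj] at a1
    rw [Function.iterate_one, mul_one] at a2
    refine ⟨q, a0, Or.inl ⟨a1, fun hi0 => ?_⟩⟩
    have e1 : j.val * al + i + (5 * al - 1) = j.val * al + (i - 1) + 1 * (5 * al) := by omega
    rw [a2, e1, fper_Cor h C al f hal1, hf (i - 1) (by omega), hj]
  · obtain ⟨q, -, hq1, hq2⟩ := cor_Cor h C al lb bs fl hal1 f (j.val * al + (al - i))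
    have a0 := hq1 0
    have a1 := hq1 1
    have a2 := hq2 1
    rw [Function.iterate_zero, id_eq, add_zero, hf (al - i) (by omega), hj,
      h.ptrev C al A _ (by omega)] at a0
    rw [Function.iterate_one] at a1
    rw [Function.iterate_one, mul_one] at a2
    refine ⟨q, ?_, Or.inr ⟨?_, fun hi0 => ?_⟩⟩
    · rw [a0]
      congr 1
      omega
    · have e1 : j.val * al + (al - i) + (5 * al - 1) =
          j.val * al + (al - (i + 1)) + 1 * (5 * al) := by omega
      rw [a2, e1, fper_Cor h C al f hal1, hf _ (by omega), hj, h.ptrev C al A _ (by omega)]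
      congr 1
      omega
    · have e1 : j.val * al + (al - i) + 1 = j.val * al + (al - (i - 1)) := by omega
      rw [a1, e1, hf _ (by omega), hj, h.ptrev C al A _ (by omega)]
      congr 1
      omega

private theorem adj_GB (h : StSB) {X E F : Type} (C : MC X E F) (al : ℕ) {x w : SV X E al}
    (hxw : (C.sub al).Adj x w) : ∃ (A : E × Bool) (i : ℕ), i < al ∧ x = C.pt al A i ∧
      w = C.pt al A (i + 1) := by
  unfold MC.sub at hxw
  rw [SimpleGraph.fromRel_adj] at hxw
  obtain ⟨-, ⟨A, i, hi, hx, hw⟩ | ⟨A, i, hi, hw, hx⟩⟩ := hxw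
  · exact ⟨A, i, hi, hx, hw⟩
  · refine ⟨rev A, al - (i + 1), by omega, ?_, ?_⟩
    · rw [h.ptrev C al A _ (by omega), hx]
      congr 1
      omega
    · rw [h.ptrev C al A _ (by omega), hw]
      congr 1
      omega

private theorem nx_GB {X E F Λ B FB : Type} (C : MC X E F) (al : ℕ) (lb : SV X E al → Λ)
    (bs : Λ → B) (fl : F → FB) (k : ℕ) (q : F × ZMod (5 * al)) :
    ((C.core al lb bs fl).nx^[k]) q = (q.1, q.2 + (k : ZMod (5 * al))) := by
  induction k with
  | zero => simp
  | succ k ih =>
    rw [Function.iterate_succ_apply', ih]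
    change (q.1, q.2 + (k : ZMod (5 * al)) + 1) = _
    rw [Nat.cast_succ, add_assoc]

theorem tGB (h : StSB) (hFI : StFI) : StGB := by
  intro X E F Λ B FB C al e lb bs fl hC hal he
  have hal1 : 1 ≤ al := by omega
  refine ⟨?_, ?_, ?_, ?_, ?_, ?_, ?_⟩
  · -- conn
    change (C.sub al).Connected
    obtain ⟨v0⟩ := hC.nonempty
    have hmac : ∀ u v : X, (C.sub al).Reachable (Sum.inl u) (Sum.inl v) := by
      intro u v
      have h1 := hC.con u v
      induction h1 with
      | refl => exact SimpleGraph.Reachable.refl _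
      | tail _ hbc ih =>
        obtain ⟨A, hA1, hA2⟩ := hbc
        have h2 := reach_GB h C hC al hal A al le_rfl
        rw [h.ptal C al A hal1, hA1, hA2] at h2
        exact ih.trans h2
    have hall : ∀ x : SV X E al, ∃ v, (C.sub al).Reachable (Sum.inl v) x := by
      intro x
      rcases h.cover C al x with ⟨v, rfl⟩ | ⟨ε, i, -, hi, rfl⟩
      · exact ⟨v, SimpleGraph.Reachable.refl _⟩
      · exact ⟨_, reach_GB h C hC al hal (ε, false) i hi.le⟩
    have hne : Nonempty (SV X E al) := ⟨Sum.inl v0⟩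
    refine SimpleGraph.Connected.mk fun x y => ?_
    obtain ⟨u, hu⟩ := hall x
    obtain ⟨v, hv⟩ := hall y
    exact hu.symm.trans ((hmac u v).trans hv)
  · -- nb
    intro x
    rcases h.cover C al x with ⟨v, rfl⟩ | ⟨ε, i, -, hi, rfl⟩
    · obtain ⟨A, hA⟩ := hC.out v
      have h1 := h.adj C al hC.ne hal1 A 0 (by omega)
      rw [h.pt0 C al A hal1, hA] at h1
      exact ⟨_, h1⟩
    · exact ⟨_, h.adj C al hC.ne hal1 (ε, false) i hi⟩
  · -- per
    intro q
    rw [nx_GB, he, ZMod.natCast_self, add_zero]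
  · -- adj
    intro q
    have a0 := h.nxt C al lb bs fl q 0 hal1
    have a1 := h.nxt C al lb bs fl q 1 hal1
    rw [Function.iterate_zero, id_eq, add_zero] at a0
    rw [Function.iterate_one] at a1
    rw [a0, a1]
    exact (hFI C al hC hal q.1).1 _
  · -- flx
    intro q
    rfl
  · -- k9
    intro x w hxw
    obtain ⟨A, i, hi, rfl, rfl⟩ := adj_GB h C al hxw
    obtain ⟨q, hq, hq1 | hq1⟩ := step_GB h C hC al hal lb bs fl A i hi
    · exact ⟨q, hq, Or.inl hq1.1⟩
    · exact ⟨q, hq, Or.inr hq1.1⟩
  · -- link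
    intro x P hP w w' hw hw' hPw
    rcases h.cover C al x with ⟨v, rfl⟩ | ⟨ε, i, hi0, hi, rfl⟩
    · obtain ⟨A, hA1, rfl⟩ := h.nbM C al v w hal1 hw
      obtain ⟨A', hA1', rfl⟩ := h.nbM C al v w' hal1 hw'
      refine hC.lnk v (fun A => P (C.pt al A 1)) ?_ A A' hA1 hA1' hPw
      intro f i hfi
      have hiv : (((i + 1).val : ℕ) : ZMod 5) = i + 1 := ZMod.natCast_zmod_val (i + 1)
      obtain ⟨q, -, hq1, hq2⟩ := cor_Cor h C al lb bs fl hal1 f ((i + 1).val * al)
      have a0 := hq1 0
      have a1 := hq1 1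
      have a2 := hq2 1
      rw [Function.iterate_zero, id_eq, h.fptE C al f _ _ hC hal1 (by omega), hiv,
        h.pt0 C al _ hal1, hfi] at a0
      rw [Function.iterate_one, h.fptE C al f _ _ hC hal1 (by omega), hiv] at a1
      rw [Function.iterate_one, mul_one] at a2
      have e1 : (i + 1).val * al + (5 * al - 1) = ((i + 1).val + 4) * al + (al - 1) := by
        have : ((i + 1).val + 4) * al = (i + 1).val * al + 4 * al := by ring
        omega
      have e2 : (((i + 1).val + 4 : ℕ) : ZMod 5) = i := by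
        rw [Nat.cast_add, hiv]
        revert i
        intro i _ _ _ _ _ _ _
        clear *-
        revert i
        decide
      rw [e1, h.fptE C al f _ _ hC hal1 (by omega), e2,
        ← h.ptrev C al (C.arc f i) 1 (by omega)] at a2
      have h1 := hP q a0
      rw [a1, a2] at h1
      exact h1
    · obtain ⟨q, hq, hq1 | hq1⟩ := step_GB h C hC al hal lb bs fl (ε, false) i hi
      · have h1 := hP q hq
        rw [hq1.1, hq1.2 hi0] at h1
        rcases h.nbI C al _ _ _ hi0 hi hw with rfl | rfl <;>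
          rcases h.nbI C al _ _ _ hi0 hi hw' with rfl | rfl
        · exact hPw
        · exact h1.2 hPw
        · exact h1.1 hPw
        · exact hPw
      · have h1 := hP q hq
        rw [hq1.1, hq1.2 hi0] at h1
        rcases h.nbI C al _ _ _ hi0 hi hw with rfl | rfl <;>
          rcases h.nbI C al _ _ _ hi0 hi hw' with rfl | rfl
        · exact hPw
        · exact h1.1 hPw
        · exact h1.2 hPw
        · exact hPw

end Pool.Agent.Helper96.LD
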