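import Pool.Agent.Helper96.LD.T_Cor
import Pool.Agent.Helper2.LD.St1

/-!
# LD project, tiling part, module GE: the metric axioms of the core
-/

set_option autoImplicit false

namespace Pool.Agent.Helper96.LD

open Pool.Agent.Helper2.LD Pool.Agent.Helper32.LD

/-- The colouring. -/
private def col {X E : Type} (al : ℕ) : SV X E al → Bool
  | Sum.inl _ => false
  | Sum.inr (_, i) => decide ((i.val + 1) % 2 = 1)

private theorem col_ptE {X E F : Type} (C : MC X E F) (al : ℕ) (hev : al % 2 = 0) (ε : E) (i : ℕ)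
    (hi : i ≤ al) : col al (C.ptE al ε i) = decide (i % 2 = 1) := by
  unfold MC.ptE
  split_ifs with h1 h2
  · change decide ((i - 1 + 1) % 2 = 1) = _
    have : i - 1 + 1 = i := by omega
    rw [this]
  · subst h2
    rfl
  · have : i = al := by omega
    subst this
    change false = _
    symm
    rw [decide_eq_false_iff_not]
    omega

private theorem col_pt {X E F : Type} (C : MC X E F) (al : ℕ) (hev : al % 2 = 0) (A : E × Bool)
    (i : ℕ) (hi : i ≤ al) : col al (C.pt al A i) = decide (i % 2 = 1) := by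
  unfold MC.pt
  split_ifs with h1
  · rw [col_ptE C al hev _ _ (by omega)]
    congr 1
    rw [eq_iff_iff]
    omega
  · exact col_ptE C al hev _ _ hi

private theorem bip_GE {X E F : Type} (C : MC X E F) (al : ℕ) (hev : al % 2 = 0) :
    Bip (C.sub al) := by
  refine ⟨col al, fun u v huv => ?_⟩
  have key : ∀ (A : E × Bool) (i : ℕ), i < al →
      col al (C.pt al A i) ≠ col al (C.pt al A (i + 1)) := by
    intro A i hi
    rw [col_pt C al hev A i hi.le, col_pt C al hev A (i + 1) hi]
    intro h0
    rw [decide_eq_decide] at h0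
    omega
  unfold MC.sub at huv
  rw [SimpleGraph.fromRel_adj] at huv
  obtain ⟨-, ⟨A, i, hi, rfl, rfl⟩ | ⟨A, i, hi, rfl, rfl⟩⟩ := huv
  · exact key A i hi
  · exact (key A i hi).symm

theorem tGE (hD : StD12) (h : StSB) (hCL : StCL) (hFI : StFI) (hNC : StNC) (hGD : StGD)
    (hIS : StIS) : StGE := by
  intro X E F Λ B FB C al e lb bs fl hC hal hev he
  have hal1 : 1 ≤ al := by omega
  have he1 : 1 ≤ e := by omega
  have hbip : Bip (C.sub al) := bip_GE C al hev
  have hgirth : NoCyc (C.sub al) (4 * e - 1) := by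
    refine hNC _ _ fun p n hn hper hadj hnb => ?_
    by_contra hcon
    have h1 := (hCL C al hC hal p n hn (by omega) hper hadj hnb).1
    omega
  have hk1 : ∀ u z w w' (d : ℕ), d + 1 < 2 * e → (C.sub al).edist u z = ((d + 1 : ℕ) : ℕ∞) →
      (C.sub al).Adj z w → (C.sub al).edist u w = (d : ℕ∞) → (C.sub al).Adj z w' →
      (C.sub al).edist u w' = (d : ℕ∞) → w = w' := by
    intro u z w w' d hd huz hzw huw hzw' huw'
    obtain ⟨_, _, huniq⟩ := (hD (C.sub al) (4 * e - 1) hbip hgirth).1 z u d
      (by rw [SimpleGraph.edist_comm]; exact huz) (by omega)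
    have a1 := huniq w ⟨hzw, by rw [SimpleGraph.edist_comm]; exact huw⟩
    have a2 := huniq w' ⟨hzw', by rw [SimpleGraph.edist_comm]; exact huw'⟩
    rw [a1, a2]
  refine ⟨hbip, hgirth, ?_, hk1, ?_⟩
  · intro q j hj
    have h1 := h.nxt C al lb bs fl q j hal1
    have h2 := h.nxt C al lb bs fl q 0 hal1
    rw [Function.iterate_zero, id_eq] at h2
    rw [h1, h2]
    exact hIS (C.sub al) (2 * e) hbip hk1 (fun j => C.fpt al q.1 (q.2.val + j))
      (fun i => (hFI C al hC hal q.1).1 (q.2.val + i))
      (fun i => (hFI C al hC hal q.1).2.1 (q.2.val + i)) j hj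
  · intro u z w w' huz hzw huw hzw' huw' hne
    obtain ⟨p, hper, hadj, hnb, hp0, hpr, hpw, hpw'⟩ := hGD (C.sub al) (2 * e) (by omega) hk1 u z w w'
      huz hzw huw hzw' huw' hne (by omega)
    obtain ⟨-, f, s, hfs⟩ := hCL C al hC hal p (2 * (2 * e)) (by omega) (by omega) hper hadj hnb
    obtain ⟨q, hq1, hq2, -⟩ := cor_Cor h C al lb bs fl hal1 f s
    have hq0 := hq2 0
    rw [Function.iterate_zero, id_eq] at hq0
    refine ⟨q, ?_, ?_, ?_⟩
    · rw [hq0, ← hp0]
      rcases hfs with hfs | hfs
      · rw [hfs]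
      · rw [hfs, mul_zero]
    · rw [hq2, ← hpr]
      rcases hfs with hfs | hfs
      · rw [hfs]
      · rw [hfs]
        have e1 : s + (5 * al - 1) * (2 * e) = s + 2 * e + (2 * e - 1) * (5 * al) := by
          obtain ⟨N, hN⟩ : ∃ N, 5 * al = N + 1 := ⟨5 * al - 1, by omega⟩
          obtain ⟨M, hM⟩ : ∃ M, 2 * e = M + 1 := ⟨2 * e - 1, by omega⟩
          have h3 : N + 1 = 2 * (M + 1) := by omega
          rw [hN, hM]
          simp only [Nat.add_sub_cancel]
          rw [h3]
          have h4 : N = 2 * M + 1 := by omega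
          rw [h4]
          ring
        rw [e1, fper_Cor h C al f hal1]
    · rcases hfs with hfs | hfs
      · left
        rw [hq2, hq2, ← hpw, ← hpw', hfs, hfs]
        exact ⟨rfl, rfl⟩
      · right
        obtain ⟨N, hN⟩ : ∃ N, 5 * al = N + 1 := ⟨5 * al - 1, by omega⟩
        obtain ⟨M, hM⟩ : ∃ M, 2 * e = M + 2 := ⟨2 * e - 2, by omega⟩
        have h4 : N = 2 * M + 3 := by omega
        rw [hq2, hq2, ← hpw, ← hpw', hfs, hfs]
        constructor
        · have e1 : s + (5 * al - 1) * (2 * e + 1) = s + (2 * e - 1) + (2 * e) * (5 * al) := by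
            rw [hN, hM]
            have a1 : M + 2 - 1 = M + 1 := by omega
            rw [a1, Nat.add_sub_cancel, h4]
            ring
          rw [e1, fper_Cor h C al f hal1]
        · have e1 : s + (5 * al - 1) * (2 * e - 1) = s + (2 * e + 1) + (2 * e - 2) * (5 * al) := by
            rw [hN, hM]
            have a1 : M + 2 - 1 = M + 1 := by omega
            rw [a1, Nat.add_sub_cancel, Nat.add_sub_cancel, h4]
            ring
          rw [e1, fper_Cor h C al f hal1]

end Pool.Agent.Helper96.LD
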