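import Pool.Agent.Helper32.LD.StT1

/-!
# LD project, tiling part, module NB: sequences without backtracking
-/

set_option autoImplicit false

namespace Pool.Agent.Helper96.LD

open Pool.Agent.Helper2.LD Pool.Agent.Helper32.LD

section

variable {X E F : Type} {C : MC X E F} {al : ℕ} {p : ℕ → SV X E al}

private theorem run_NB (h : StSB) (hadj : ∀ i, (C.sub al).Adj (p i) (p (i + 1)))
    (hnb : ∀ i, p i ≠ p (i + 2)) {A : E × Bool} {c i : ℕ} (h0 : p i = C.pt al A c)
    (h1 : p (i + 1) = C.pt al A (c + 1)) :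
    ∀ l, c + l ≤ al → p (i + l) = C.pt al A (c + l) := by
  have key : ∀ l, c + l + 1 ≤ al → p (i + l) = C.pt al A (c + l) ∧
      p (i + l + 1) = C.pt al A (c + l + 1) := by
    intro l
    induction l with
    | zero => exact fun _ => ⟨h0, h1⟩
    | succ l ih =>
      intro hl
      obtain ⟨a, b⟩ := ih (by omega)
      refine ⟨b, ?_⟩
      have h2 := hadj (i + l + 1)
      rw [b] at h2
      rcases h.nbI C al A (c + l + 1) _ (by omega) (by omega) h2 with h3 | h3
      · exfalso
        apply hnb (i + l)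
        rw [a, h3]
        rfl
      · exact h3
  intro l hl
  rcases Nat.eq_or_lt_of_le hl with h2 | h2
  · rcases Nat.eq_zero_or_pos l with h3 | h3
    · subst h3
      exact h0
    · obtain ⟨a, b⟩ := key (l - 1) (by omega)
      have e1 : i + (l - 1) + 1 = i + l := by omega
      have e2 : c + (l - 1) + 1 = c + l := by omega
      rw [e1, e2] at b
      exact b
  · exact (key l (by omega)).1

private theorem arc_NB (h : StSB) (hal : 4 ≤ al)
    (hadj : ∀ i, (C.sub al).Adj (p i) (p (i + 1))) (hnb : ∀ i, p i ≠ p (i + 2)) {i : ℕ} {v : X}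
    (hv : p i = Sum.inl v) : ∃ B : E × Bool, ∀ l, l ≤ al → p (i + l) = C.pt al B l := by
  have h1 := hadj i
  rw [hv] at h1
  obtain ⟨B, hB1, hB2⟩ := h.nbM C al v _ (by omega) h1
  refine ⟨B, fun l hl => ?_⟩
  have h2 : p i = C.pt al B 0 := by
    rw [h.pt0 C al B (by omega), hB1, hv]
  have h3 := run_NB h hadj hnb h2 hB2 l (by omega)
  rwa [zero_add] at h3

private theorem start_NB (h : StSB) (hal : 4 ≤ al)
    (hadj : ∀ i, (C.sub al).Adj (p i) (p (i + 1))) (hnb : ∀ i, p i ≠ p (i + 2)) :
    ∃ (i0 : ℕ) (v : X), p i0 = Sum.inl v := by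
  rcases h.cover C al (p 0) with ⟨v, hv⟩ | ⟨ε, i, hi0, hi, hp⟩
  · exact ⟨0, v, hv⟩
  have h1 := hadj 0
  rw [hp] at h1
  rcases h.nbI C al (ε, false) i _ hi0 hi h1 with h2 | h2
  · have h3 : p 0 = C.pt al (rev (ε, false)) (al - i) := by
      rw [h.ptrev C al _ _ (by omega), hp]
      congr 1
      omega
    have h4 : p (0 + 1) = C.pt al (rev (ε, false)) (al - i + 1) := by
      rw [h.ptrev C al _ _ (by omega), h2]
      congr 1
      omega
    have h5 := run_NB h hadj hnb h3 h4 i (by omega)
    have e1 : al - i + i = al := by omega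
    rw [e1, h.ptal C al _ (by omega)] at h5
    exact ⟨_, _, h5⟩
  · have h5 := run_NB h hadj hnb hp h2 (al - i) (by omega)
    have e1 : i + (al - i) = al := by omega
    rw [e1, h.ptal C al _ (by omega)] at h5
    exact ⟨_, _, h5⟩

end

theorem tNB (h : StSB) : StNB := by
  intro X E F C al _ hal p hadj hnb
  obtain ⟨i0, v0, hv0⟩ := start_NB h hal hadj hnb
  have hmac : ∀ j, ∃ v : X, p (i0 + j * al) = Sum.inl v := by
    intro j
    induction j with
    | zero => exact ⟨v0, by rw [zero_mul, add_zero]; exact hv0⟩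
    | succ j ih =>
      obtain ⟨v, hv⟩ := ih
      obtain ⟨B, hB⟩ := arc_NB h hal hadj hnb hv
      have h1 := hB al le_rfl
      rw [h.ptal C al _ (by omega)] at h1
      have e1 : i0 + (j + 1) * al = i0 + j * al + al := by ring
      exact ⟨_, by rw [e1]; exact h1⟩
  choose v hv using hmac
  have harc : ∀ j, ∃ B : E × Bool, ∀ l, l ≤ al → p (i0 + j * al + l) = C.pt al B l := fun j =>
    arc_NB h hal hadj hnb (hv j)
  choose A hA using harc
  refine ⟨i0, A, fun j => ?_, fun j hrev => ?_, fun j i hi => hA j i hi⟩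
  · have h1 := hA j al le_rfl
    have h2 := hA (j + 1) 0 (by omega)
    have e1 : i0 + (j + 1) * al + 0 = i0 + j * al + al := by ring
    rw [e1, h1, h.ptal C al _ (by omega), h.pt0 C al _ (by omega)] at h2
    exact Sum.inl_injective h2
  · have h1 := hA j (al - 1) (by omega)
    have h2 := hA (j + 1) 1 (by omega)
    rw [hrev, h.ptrev C al _ _ (by omega), ← h1] at h2
    apply hnb (i0 + j * al + (al - 1))
    have e1 : i0 + j * al + (al - 1) + 2 = i0 + (j + 1) * al + 1 := by
      have : (j + 1) * al = j * al + al := by ring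
      omega
    rw [e1, h2]

end Pool.Agent.Helper96.LD
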