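import Pool.Agent.Helper96.LD.T_Cor

/-!
# LD project, tiling part, module GK: antipodes determine corners
-/

set_option autoImplicit false

namespace Pool.Agent.Helper96.LD

open Pool.Agent.Helper2.LD Pool.Agent.Helper32.LD

private theorem com_GK (h : StSB) {X E F : Type} (C : MC X E F) (hC : MCAx C) (al : ℕ)
    (hal : 4 ≤ al) (f f' : F) (a b : ℕ) (hab : C.fpt al f a = C.fpt al f' b) :
    (∃ j, C.src (C.arc f ((a / al : ℕ) : ZMod 5)) = C.src (C.arc f' j)) ∧
      (a % al ≠ 0 → ∃ j, C.src (C.arc f (((a / al : ℕ) : ZMod 5) + 1)) = C.src (C.arc f' j)) := by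
  have hal1 : 1 ≤ al := by omega
  have ha : a % al < al := Nat.mod_lt _ hal1
  have hb : b % al < al := Nat.mod_lt _ hal1
  have e1 : a = a / al * al + a % al := by
    have := Nat.div_add_mod a al
    have e2 : a / al * al = al * (a / al) := mul_comm _ _
    omega
  have e2 : b = b / al * al + b % al := by
    have := Nat.div_add_mod b al
    have e2 : b / al * al = al * (b / al) := mul_comm _ _
    omega
  have h1 : C.fpt al f a = C.pt al (C.arc f ((a / al : ℕ) : ZMod 5)) (a % al) := by
    conv_lhs => rw [e1]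
    exact h.fptE C al f _ _ hC hal1 ha.le
  have h2 : C.fpt al f' b = C.pt al (C.arc f' ((b / al : ℕ) : ZMod 5)) (b % al) := by
    conv_lhs => rw [e2]
    exact h.fptE C al f' _ _ hC hal1 hb.le
  rw [h1, h2] at hab
  by_cases h0 : a % al = 0
  · refine ⟨⟨((b / al : ℕ) : ZMod 5), ?_⟩, fun h3 => absurd h0 h3⟩
    by_cases hb0 : b % al = 0
    · rw [h0, hb0, h.pt0 C al _ hal1, h.pt0 C al _ hal1] at hab
      exact Sum.inl_injective hab
    · exfalso
      rcases h.inter C al _ _ _ _ (Nat.pos_of_ne_zero hb0) hb ha.le hab.symm with ⟨-, h3⟩ | ⟨-, h3⟩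
      · omega
      · omega
  · rcases h.inter C al _ _ _ _ (Nat.pos_of_ne_zero h0) ha hb.le hab with ⟨h3, -⟩ | ⟨h3, -⟩
    · refine ⟨⟨((b / al : ℕ) : ZMod 5), by rw [h3]⟩, fun _ => ⟨((b / al : ℕ) : ZMod 5) + 1, ?_⟩⟩
      rw [← hC.fc, ← hC.fc, h3]
    · have h4 : ∀ A : E × Bool, C.src (rev A) = C.dst A := by
        intro A
        unfold rev MC.src MC.dst
        rcases A with ⟨ε, _ | _⟩ <;> rfl
      have h5 : ∀ A : E × Bool, C.dst (rev A) = C.src A := by
        intro A
        unfold rev MC.src MC.dst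
        rcases A with ⟨ε, _ | _⟩ <;> rfl
      refine ⟨⟨((b / al : ℕ) : ZMod 5) + 1, ?_⟩, fun _ => ⟨((b / al : ℕ) : ZMod 5), ?_⟩⟩
      · rw [← hC.fc, h3, h5]
      · rw [h3, h4, hC.fc]

theorem tGK (h : StSB) (hFI : StFI) : StGK := by
  intro X E F Λ B FB C al e lb bs fl hC hal hev he q q' h0 h1
  have hal1 : 1 ≤ al := by omega
  have hne : NeZero (5 * al) := ⟨by omega⟩
  obtain ⟨c, hc⟩ : ∃ c, al = 4 * c := ⟨al / 4, by omega⟩
  have hc1 : 1 ≤ c := by omega
  have h2 := h.nxt C al lb bs fl q 0 hal1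
  have h3 := h.nxt C al lb bs fl q' 0 hal1
  rw [Function.iterate_zero, id_eq, add_zero] at h2 h3
  rw [h2, h3] at h0
  rw [h.nxt C al lb bs fl q _ hal1, h.nxt C al lb bs fl q' _ hal1] at h1
  have hff : q.1 = q'.1 := by
    obtain ⟨⟨j1, hj1⟩, hA⟩ := com_GK h C hC al hal _ _ _ _ h0
    obtain ⟨⟨j3, hj3⟩, hB⟩ := com_GK h C hC al hal _ _ _ _ h1
    set a := q.2.val with ha
    have hdm := Nat.div_add_mod a al
    have hml := Nat.mod_lt a hal1
    have hmul : al * (a / al) = a / al * al := mul_comm _ _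
    by_cases hr : a % al < 2 * c
    · have e1 : (a + 2 * e) / al = a / al + 2 ∧ (a + 2 * e) % al = a % al + 2 * c := by
        have e2 : a + 2 * e = (a % al + 2 * c) + al * (a / al + 2) := by
          have : al * (a / al + 2) = al * (a / al) + 2 * al := by ring
          omega
        rw [e2, Nat.add_mul_div_left _ _ (by omega), Nat.add_mul_mod_self_left,
          Nat.div_eq_of_lt (by omega), Nat.mod_eq_of_lt (by omega)]
        omega
      rw [e1.1] at hj3
      rw [e1.1, e1.2] at hB
      obtain ⟨j2, hj2⟩ := hB (by omega)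
      rw [Nat.cast_add] at hj3 hj2
      refine hC.f3 _ _ _ _ _ _ _ _ ?_ ?_ ?_ hj1 hj3 hj2
      · generalize ((a / al : ℕ) : ZMod 5) = i
        revert i
        decide
      · generalize ((a / al : ℕ) : ZMod 5) = i
        revert i
        decide
      · generalize ((a / al : ℕ) : ZMod 5) = i
        revert i
        decide
    · obtain ⟨j2, hj2⟩ := hA (by omega)
      have e1 : (a + 2 * e) / al = a / al + 3 := by
        have e2 : a + 2 * e = (a % al - 2 * c) + al * (a / al + 3) := by
          have : al * (a / al + 3) = al * (a / al) + 3 * al := by ring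
          omega
        rw [e2, Nat.add_mul_div_left _ _ (by omega), Nat.div_eq_of_lt (by omega)]
        omega
      rw [e1, Nat.cast_add] at hj3
      refine hC.f3 _ _ _ _ _ _ _ _ ?_ ?_ ?_ hj1 hj2 hj3
      · generalize ((a / al : ℕ) : ZMod 5) = i
        revert i
        decide
      · generalize ((a / al : ℕ) : ZMod 5) = i
        revert i
        decide
      · generalize ((a / al : ℕ) : ZMod 5) = i
        revert i
        decide
  rw [← hff] at h0
  have h4 := (hFI C al hC hal q.1).2.2 _ _ (ZMod.val_lt q.2) (ZMod.val_lt q'.2) h0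
  exact Prod.ext hff (ZMod.val_injective _ h4)

end Pool.Agent.Helper96.LD
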