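import Pool.Agent.Helper32.LD.StT1

/-!
# LD project, tiling part: corners (helper lemmas for GE, GK, GB)
-/

set_option autoImplicit false

namespace Pool.Agent.Helper96.LD

open Pool.Agent.Helper2.LD Pool.Agent.Helper32.LD

theorem fper_Cor (h : StSB) {X E F : Type} (C : MC X E F) (al : ℕ) (f : F) (hal : 1 ≤ al) (k j : ℕ) :
    C.fpt al f (j + k * (5 * al)) = C.fpt al f j := by
  induction k with
  | zero => rw [zero_mul, add_zero]
  | succ k ih =>
    have : j + (k + 1) * (5 * al) = j + k * (5 * al) + 5 * al := by ring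
    rw [this, h.fper C al f _ hal, ih]

theorem fmod_Cor (h : StSB) {X E F : Type} (C : MC X E F) (al : ℕ) (f : F) (hal : 1 ≤ al) (s j : ℕ) :
    C.fpt al f (s % (5 * al) + j) = C.fpt al f (s + j) := by
  have e1 : s + j = s % (5 * al) + j + s / (5 * al) * (5 * al) := by
    have := Nat.div_add_mod s (5 * al)
    have e2 : s / (5 * al) * (5 * al) = 5 * al * (s / (5 * al)) := mul_comm _ _
    omega
  rw [e1, fper_Cor h C al f hal]

/-- A corner at every point of a face. -/
theorem cor_Cor (h : StSB) {X E F Λ B FB : Type} (C : MC X E F) (al : ℕ) (lb : SV X E al → Λ)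
    (bs : Λ → B) (fl : F → FB) (hal : 1 ≤ al) (f : F) (s : ℕ) :
    ∃ q : F × ZMod (5 * al), q.1 = f ∧
      (∀ j, (C.core al lb bs fl).ow (((C.core al lb bs fl).nx^[j]) q) = C.fpt al f (s + j)) ∧
      (∀ j, (C.core al lb bs fl).ow (((C.core al lb bs fl).nx.symm^[j]) q) =
        C.fpt al f (s + (5 * al - 1) * j)) := by
  obtain ⟨q, hq1, hq2⟩ := h.sur al f s hal
  refine ⟨q, hq1, fun j => ?_, fun j => ?_⟩
  · rw [h.nxt C al lb bs fl q j hal, hq1, hq2, fmod_Cor h C al f hal]
  · rw [h.nxtS C al lb bs fl q j hal, hq1, hq2, fmod_Cor h C al f hal]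

end Pool.Agent.Helper96.LD
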